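import Pool.Agent.Helper61.RC.Base2
import Pool.Agent.Helper20.RC.Approx
import Pool.Agent.Helper20.RC.Swap

/-!
# RC-11: the conditional expectation
-/

set_option autoImplicit false

open scoped ENNReal NNReal Topology CStarAlgebra ComplexOrder
open Filter

noncomputable section

namespace Pool.Agent.Helper61.RC

section bv
variable {X : Type*}

/-- the standard basis vectors -/
def bv (q : ℤ × X) : L2 (ℤ × X) :=
  haveI := Classical.decEq (ℤ × X)
  lp.single 2 q 1

theorem bv_self (q : ℤ × X) : bv q q = 1 := by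
  letI : DecidableEq (ℤ × X) := Classical.decEq _
  unfold bv
  rw [lp.single_apply_self]

theorem bv_ne {q q' : ℤ × X} (hq : q' ≠ q) : bv q q' = 0 := by
  letI : DecidableEq (ℤ × X) := Classical.decEq _
  unfold bv
  rw [lp.single_apply, Pi.single_eq_of_ne hq]

theorem norm_bv (q : ℤ × X) : ‖bv q‖ = 1 := by
  letI : DecidableEq (ℤ × X) := Classical.decEq _
  unfold bv
  rw [lp.norm_single (by norm_num), norm_one]

theorem Ex_eq (T : Op X) (x : X) : Ex T x = T (bv ((0 : ℤ), x)) ((0 : ℤ), x) := rfl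

theorem inner_bv (q : ℤ × X) (ξ : L2 (ℤ × X)) : inner ℂ (bv q) ξ = ξ q := by
  letI : DecidableEq (ℤ × X) := Classical.decEq _
  unfold bv
  rw [lp.inner_single_left]
  simp

theorem Ex_add (S T : Op X) (x : X) : Ex (S + T) x = Ex S x + Ex T x := by
  rw [Ex_eq, Ex_eq, Ex_eq]
  simp

theorem Ex_sub (S T : Op X) (x : X) : Ex (S - T) x = Ex S x - Ex T x := by
  rw [Ex_eq, Ex_eq, Ex_eq]
  simp

theorem Ex_zero (x : X) : Ex (0 : Op X) x = 0 := by
  rw [Ex_eq]
  simp

theorem Ex_sum {ι : Type*} (s : Finset ι) (S : ι → Op X) (x : X) :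
    Ex (∑ i ∈ s, S i) x = ∑ i ∈ s, Ex (S i) x := by
  classical
  induction s using Finset.induction_on with
  | empty => simp [Ex_zero]
  | insert a s ha ih => rw [Finset.sum_insert ha, Finset.sum_insert ha, Ex_add, ih]

theorem norm_Ex_le (T : Op X) (x : X) : ‖Ex T x‖ ≤ ‖T‖ := by
  rw [Ex_eq]
  refine (lp.norm_apply_le_norm (by norm_num) _ _).trans ?_
  have h1 := T.le_opNorm (bv ((0 : ℤ), x))
  rwa [norm_bv, mul_one] at h1

theorem Ex_star_mul_self (S : Op X) (x : X) :
    Ex (star S * S) x = ((‖S (bv ((0 : ℤ), x))‖ ^ 2 : ℝ) : ℂ) := by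
  rw [Ex_eq, ← inner_bv ((0 : ℤ), x)]
  have h1 : (star S * S) (bv ((0 : ℤ), x)) = star S (S (bv ((0 : ℤ), x))) := rfl
  rw [h1, ContinuousLinearMap.star_eq_adjoint, ContinuousLinearMap.adjoint_inner_right,
    inner_self_eq_norm_sq_to_K]
  push_cast
  rfl

theorem Ex_star_mul_self_nonneg (S : Op X) (x : X) : 0 ≤ Ex (star S * S) x := by
  rw [Ex_star_mul_self, Complex.zero_le_real]
  positivity

theorem op_eq_zero {T : Op X} (hT : ∀ q, T (bv q) = 0) : T = 0 := by
  classical
  ext1 ξ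
  have h1 := lp.hasSum_single (p := 2) (by norm_num) ξ
  have h2 := h1.mapL T
  have h3 : ∀ i, T (lp.single 2 i (ξ i)) = 0 := by
    intro i
    have h4 : (lp.single 2 i (ξ i) : L2 (ℤ × X)) = ξ i • bv i := by
      ext j
      rw [lp.single_apply, lp.coeFn_smul, Pi.smul_apply, smul_eq_mul]
      by_cases hj : j = i
      · subst hj
        rw [Pi.single_eq_same, bv_self, mul_one]
      · rw [Pi.single_eq_of_ne hj, bv_ne hj, mul_zero]
    rw [h4, map_smul, hT, smul_zero]
  simp only [h3] at h2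
  rw [zero_apply]
  exact h2.unique hasSum_zero

end bv

section C
variable {X : Type*} [MetricSpace X] [CompactSpace X]

theorem Ex_mulOp_mul (h : X ≃ₜ X) (f : C(X, ℂ)) (T : Op X) (x : X) :
    Ex (mulOp h f * T) x = f x * Ex T x := by
  rw [Ex_eq, Ex_eq]
  have h1 : (mulOp h f * T) (bv ((0 : ℤ), x)) = mulOp h f (T (bv ((0 : ℤ), x))) := rfl
  rw [h1, mulOp_apply]
  rfl

theorem mulOp_bv (h : X ≃ₜ X) (f : C(X, ℂ)) (q : ℤ × X) :
    mulOp h f (bv q) = f ((h ^ q.1) q.2) • bv q := by
  ext q'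
  rw [mulOp_apply, lp.coeFn_smul, Pi.smul_apply, smul_eq_mul]
  by_cases hq : q' = q
  · rw [hq]
  · rw [bv_ne hq, mul_zero, mul_zero]

theorem Ex_mul_mulOp (h : X ≃ₜ X) (f : C(X, ℂ)) (T : Op X) (x : X) :
    Ex (T * mulOp h f) x = Ex T x * f x := by
  rw [Ex_eq, Ex_eq]
  have h1 : (T * mulOp h f) (bv ((0 : ℤ), x)) = T (mulOp h f (bv ((0 : ℤ), x))) := rfl
  rw [h1, mulOp_bv, map_smul, lp.coeFn_smul, Pi.smul_apply, smul_eq_mul, mul_comm]
  rfl

theorem Ex_shiftZ (m : ℤ) (x : X) : Ex (shiftZ X m) x = if m = 0 then 1 else 0 := by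
  rw [Ex_eq, shiftZ_apply]
  by_cases hm : m = 0
  · subst hm
    rw [if_pos rfl]
    exact bv_self _
  · rw [if_neg hm]
    apply bv_ne
    intro h1
    rw [Prod.mk.injEq] at h1
    apply hm
    have := h1.1
    omega

theorem Ex_mulOp_shiftZ (h : X ≃ₜ X) (f : C(X, ℂ)) (m : ℤ) (x : X) :
    Ex (mulOp h f * shiftZ X m) x = if m = 0 then f x else 0 := by
  rw [Ex_mulOp_mul, Ex_shiftZ]
  split_ifs <;> simp

theorem continuous_Ex (h : X ≃ₜ X) (T : Cross h) : Continuous (Ex (val h T)) := by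
  have happ : ∀ n : ℕ, ∃ g : X → ℂ, Continuous g ∧ ∀ x, ‖Ex (val h T) x - g x‖ ≤
      1 / ((n : ℝ) + 1) := by
    intro n
    obtain ⟨N, f, hf⟩ := cross_approx h T (1 / ((n : ℝ) + 1)) (by positivity)
    refine ⟨fun x => Ex (val h (∑ m ∈ Finset.Icc (-(N : ℤ)) N, cfunC h (f m) * uZ h m)) x,
      ?_, fun x => ?_⟩
    · have h1 : (fun x => Ex (val h (∑ m ∈ Finset.Icc (-(N : ℤ)) N, cfunC h (f m) * uZ h m)) x) =
          fun x => ∑ m ∈ Finset.Icc (-(N : ℤ)) N, (if m = 0 then f m x else 0) := by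
        funext x
        rw [map_sum, Ex_sum]
        refine Finset.sum_congr rfl fun m _ => ?_
        rw [map_mul, val_cfunC, val_uZ, Ex_mulOp_shiftZ]
      rw [h1]
      apply continuous_finsetSum
      intro m _
      split_ifs
      · exact (f m).continuous
      · exact continuous_const
    · rw [← Ex_sub, ← map_sub]
      refine (norm_Ex_le _ _).trans ?_
      rw [norm_val]
      exact hf.le
  choose g hg hgb using happ
  have hlim : TendstoUniformly g (Ex (val h T)) atTop := by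
    rw [Metric.tendstoUniformly_iff]
    intro ε hε
    have h1 := (tendsto_order.1 (tendsto_one_div_add_atTop_nhds_zero_nat (𝕜 := ℝ))).2 ε hε
    filter_upwards [h1] with n hn x
    rw [dist_eq_norm]
    exact (hgb n x).trans_lt hn
  exact hlim.continuous (Frequently.of_forall hg)

theorem swapOp_bv (h : X ≃ₜ X) (p : ℤ) (x : X) :
    swapOp h (bv (p, x)) = bv (p - 1, h x) := by
  ext q
  rw [swapOp_apply]
  by_cases hq : q = (p - 1, h x)
  · subst hq
    rw [bv_self]
    have : ((p - 1, h x).1 + 1, h.symm (p - 1, h x).2) = (p, x) := by simp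
    rw [this, bv_self]
  · rw [bv_ne hq]
    apply bv_ne
    intro h1
    apply hq
    rw [Prod.mk.injEq] at h1
    ext
    · simp only
      have := h1.1
      omega
    · simp only
      rw [← h1.2]
      simp

theorem Ex_faithful (h : X ≃ₜ X) (S : Cross h) (hS : ∀ x, Ex (val h (star S * S)) x = 0) :
    S = 0 := by
  have h0 : ∀ x, val h S (bv ((0 : ℤ), x)) = 0 := by
    intro x
    have h1 := hS x
    rw [map_mul, map_star, Ex_star_mul_self] at h1
    have h2 : ‖val h S (bv ((0 : ℤ), x))‖ ^ 2 = 0 := by exact_mod_cast h1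
    exact norm_eq_zero.1 (pow_eq_zero_iff (two_ne_zero) |>.1 h2)
  -- commutation with the swap operator
  have hcomm : ∀ ξ, swapOp h (val h S ξ) = val h S (swapOp h ξ) := by
    intro ξ
    have h1 := congrArg (fun T : Op X => T ξ) (swapOp_comm h S)
    exact h1
  have hinj : ∀ ξ, swapOp h ξ = 0 → ξ = 0 := by
    intro ξ hξ
    have h1 : (star (swapOp h) * swapOp h) ξ = (1 : Op X) ξ :=
      congrArg (fun T : Op X => T ξ) (swapOp_unitary h).1
    have h2 : (star (swapOp h) * swapOp h) ξ = star (swapOp h) (swapOp h ξ) := rfl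
    rw [h2, hξ, map_zero] at h1
    exact h1.symm
  have hpos : ∀ n : ℕ, ∀ x, val h S (bv ((n : ℤ), x)) = 0 := by
    intro n
    induction n with
    | zero => intro x; exact h0 x
    | succ n ih =>
      intro x
      apply hinj
      rw [hcomm, swapOp_bv]
      have : (((n + 1 : ℕ) : ℤ) - 1) = (n : ℤ) := by push_cast; ring
      rw [this]
      exact ih (h x)
  have hneg : ∀ n : ℕ, ∀ x, val h S (bv (-(n : ℤ), x)) = 0 := by
    intro n
    induction n with
    | zero => intro x; simpa using h0 x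
    | succ n ih =>
      intro x
      have h1 : (-((n + 1 : ℕ) : ℤ), x) = (-(n : ℤ) - 1, h (h.symm x)) := by
        ext
        · push_cast; ring
        · simp
      rw [h1, ← swapOp_bv, ← hcomm, ih, map_zero]
  apply val_injective h
  rw [map_zero]
  apply op_eq_zero
  rintro ⟨p, x⟩
  rcases Int.eq_nat_or_neg p with ⟨n, rfl | rfl⟩
  · exact hpos n x
  · exact hneg n x

end C

end Pool.Agent.Helper61.RC
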