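import Pool.Agent.Helper51.RD.Expect

/-!
# RC-12: localisation
-/

set_option autoImplicit false

open scoped ENNReal NNReal Topology CStarAlgebra ComplexOrder
open Filter

noncomputable section

namespace Pool.Agent.Helper61.RC

section C
variable {X : Type*} [MetricSpace X] [CompactSpace X]

theorem r12_cfunC_zero (h : X ≃ₜ X) : cfunC h 0 = 0 := by
  apply val_injective h
  rw [val_cfunC, mulOp_zero, map_zero]

theorem r12_cfunC_mul (h : X ≃ₜ X) (f g : C(X, ℂ)) : cfunC h (f * g) = cfunC h f * cfunC h g := by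
  apply val_injective h
  rw [map_mul, val_cfunC, val_cfunC, val_cfunC, mulOp_mul]

theorem r12_cfunC_sub (h : X ≃ₜ X) (f g : C(X, ℂ)) : cfunC h (f - g) = cfunC h f - cfunC h g := by
  apply val_injective h
  rw [map_sub, val_cfunC, val_cfunC, val_cfunC, mulOp_sub]

theorem r12_cfunC_smul (h : X ≃ₜ X) (c : ℂ) (f : C(X, ℂ)) : cfunC h (c • f) = c • cfunC h f := by
  apply val_injective h
  rw [map_smul, val_cfunC, val_cfunC, mulOp_smul]

theorem r12_norm_cfunC_le (h : X ≃ₜ X) {f : C(X, ℂ)} {C : ℝ} (hC : 0 ≤ C)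
    (hf : ∀ x, ‖f x‖ ≤ C) : ‖cfunC h f‖ ≤ C := by
  rw [← norm_val, val_cfunC]
  refine (norm_mulOp_le h _).trans ?_
  rw [ContinuousMap.norm_le _ hC]
  exact hf

/-- a neighbourhood which is moved off itself -/
theorem r12_nhd (h : X ≃ₜ X) (hfree : ∀ m : ℤ, m ≠ 0 → ∀ x, (h ^ m) x ≠ x) (x₀ : X) (N : ℕ) :
    ∃ O : Set X, IsOpen O ∧ x₀ ∈ O ∧ ∀ m ∈ Finset.Icc (-(N : ℤ)) N, m ≠ 0 → ∀ x ∈ O,
      (h ^ (-m)) x ∉ O := by
  classical
  have h1 : ∀ m : ℤ, ∃ U : Set X, IsOpen U ∧ x₀ ∈ U ∧ (m ≠ 0 → ∀ x ∈ U, (h ^ (-m)) x ∉ U) := by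
    intro m
    by_cases hm : m = 0
    · exact ⟨Set.univ, isOpen_univ, Set.mem_univ _, fun h => absurd hm h⟩
    · obtain ⟨U, V, hU, hV, hxU, hxV, hUV⟩ := t2_separation (hfree (-m) (neg_ne_zero.2 hm) x₀)
      refine ⟨V ∩ (h ^ (-m)) ⁻¹' U, hV.inter (hU.preimage (h ^ (-m)).continuous), ⟨hxV, hxU⟩, ?_⟩
      intro _ x hx hx'
      exact Set.disjoint_left.1 hUV hx.2 hx'.1
  choose U hU hxU hUm using h1
  refine ⟨⋂ m ∈ Finset.Icc (-(N : ℤ)) N, U m, isOpen_biInter_finset (fun m _ => hU m),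
    Set.mem_iInter₂.2 (fun m _ => hxU m), ?_⟩
  intro m hm hm0 x hx hx'
  exact hUm m hm0 x (Set.mem_iInter₂.1 hx m hm) (Set.mem_iInter₂.1 hx' m hm)

theorem localize (h : X ≃ₜ X) (hfree : ∀ m : ℤ, m ≠ 0 → ∀ x, (h ^ m) x ≠ x) (T : Cross h)
    (x₀ : X) (ε : ℝ) (hε : 0 < ε) : ∃ O : Set X, IsOpen O ∧ x₀ ∈ O ∧ ∀ f : C(X, ℝ),
      (∀ x, 0 ≤ f x ∧ f x ≤ 1) → (∀ x, x ∉ O → f x = 0) →
      ‖cfun h f * T * cfun h f - (Ex (val h T) x₀) • cfun h (f * f)‖ ≤ ε := by
  obtain ⟨N, F, hF⟩ := cross_approx h T (ε / 4) (by positivity)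
  obtain ⟨O₁, hO₁, hxO₁, hO₁m⟩ := r12_nhd h hfree x₀ N
  have hO₂ : IsOpen {x : X | ‖F 0 x - F 0 x₀‖ < ε / 4} :=
    isOpen_lt (by fun_prop) continuous_const
  refine ⟨O₁ ∩ {x : X | ‖F 0 x - F 0 x₀‖ < ε / 4}, hO₁.inter hO₂, ⟨hxO₁, ?_⟩, ?_⟩
  · change ‖F 0 x₀ - F 0 x₀‖ < ε / 4
    rw [sub_self, norm_zero]
    positivity
  intro f hf01 hfO
  set T' : Cross h := ∑ m ∈ Finset.Icc (-(N : ℤ)) N, cfunC h (F m) * uZ h m with hT'
  set c : ℂ := Ex (val h T) x₀ with hc
  -- the coefficient of the approximation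
  have hEx : Ex (val h T') x₀ = F 0 x₀ := by
    rw [hT', map_sum, Ex_sum, Finset.sum_eq_single (0 : ℤ)]
    · rw [map_mul, val_cfunC, val_uZ, Ex_mulOp_shiftZ, if_pos rfl]
    · intro m _ hm
      rw [map_mul, val_cfunC, val_uZ, Ex_mulOp_shiftZ, if_neg hm]
    · intro hm
      exfalso
      apply hm
      rw [Finset.mem_Icc]
      constructor <;> omega
  have hcF : ‖F 0 x₀ - c‖ ≤ ε / 4 := by
    rw [← hEx, hc, ← Ex_sub, ← map_sub]
    refine (norm_Ex_le _ _).trans ?_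
    rw [norm_val, norm_sub_rev]
    exact hF.le
  -- compression of the approximation
  have hcomp : cfun h f * T' * cfun h f = cfunC h (cpx f * F 0 * cpx f) := by
    rw [hT', Finset.mul_sum, Finset.sum_mul, Finset.sum_eq_single (0 : ℤ)]
    · rw [uZ_zero, mul_one, r12_cfunC_mul, r12_cfunC_mul]
      rfl
    · intro m hm hm0
      have h1 : cfun h f * (cfunC h (F m) * uZ h m) * cfun h f =
          cfun h f * cfunC h (F m) * (uZ h m * cfun h f) := by
        simp only [mul_assoc]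
      rw [h1, uZ_mul_cfun, ← mul_assoc]
      have h2 : cfun h f * cfunC h (F m) *
          cfun h (f.comp ((h ^ (-m) : X ≃ₜ X) : C(X, X))) =
          cfunC h (cpx f * F m * cpx (f.comp ((h ^ (-m) : X ≃ₜ X) : C(X, X)))) := by
        rw [r12_cfunC_mul, r12_cfunC_mul]
        rfl
      have h3 : cpx f * F m * cpx (f.comp ((h ^ (-m) : X ≃ₜ X) : C(X, X))) = 0 := by
        ext x
        simp only [ContinuousMap.mul_apply, cpx_apply, ContinuousMap.comp_apply,
          ContinuousMap.zero_apply]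
        by_cases hx : x ∈ O₁ ∩ {x : X | ‖F 0 x - F 0 x₀‖ < ε / 4}
        · have hx' : (h ^ (-m)) x ∉ O₁ ∩ {x : X | ‖F 0 x - F 0 x₀‖ < ε / 4} := fun h4 =>
            hO₁m m hm hm0 x hx.1 h4.1
          have h5 := hfO _ hx'
          have h6 : f (((h ^ (-m) : X ≃ₜ X) : C(X, X)) x) = 0 := h5
          rw [h6]
          simp
        · rw [hfO x hx]
          simp
      rw [h2, h3, r12_cfunC_zero, zero_mul]
    · intro hm
      exfalso
      apply hm
      rw [Finset.mem_Icc]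
      constructor <;> omega
  have hff : cpx (f * f) = cpx f * cpx f := by
    ext x
    simp
  have h1 : cfun h f * T * cfun h f - c • cfun h (f * f) =
      cfun h f * (T - T') * cfun h f +
        cfunC h (cpx f * F 0 * cpx f - c • (cpx f * cpx f)) := by
    rw [r12_cfunC_sub, r12_cfunC_smul, ← hcomp]
    have h2 : cfun h (f * f) = cfunC h (cpx f * cpx f) := by
      unfold cfun
      rw [hff]
    rw [h2]
    noncomm_ring
  rw [h1]
  have hnf : ‖cfun h f‖ ≤ 1 := norm_cfun_le h zero_le_one (fun x => by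
    rw [abs_le]
    constructor
    · linarith [(hf01 x).1]
    · exact (hf01 x).2)
  have h2 : ‖cfun h f * (T - T') * cfun h f‖ ≤ ε / 4 := by
    have hTT : ‖T - T'‖ ≤ ε / 4 := hF.le
    calc ‖cfun h f * (T - T') * cfun h f‖ ≤ ‖cfun h f * (T - T')‖ * ‖cfun h f‖ :=
          norm_mul_le _ _
      _ ≤ ‖cfun h f‖ * ‖T - T'‖ * ‖cfun h f‖ :=
          mul_le_mul_of_nonneg_right (norm_mul_le _ _) (norm_nonneg _)
      _ ≤ 1 * (ε / 4) * 1 := by
          apply mul_le_mul _ hnf (norm_nonneg _) (by positivity)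
          exact mul_le_mul hnf hTT (norm_nonneg _) zero_le_one
      _ = ε / 4 := by ring
  have h3 : ‖cfunC h (cpx f * F 0 * cpx f - c • (cpx f * cpx f))‖ ≤ ε / 2 := by
    apply r12_norm_cfunC_le h (by positivity)
    intro x
    simp only [ContinuousMap.sub_apply, ContinuousMap.mul_apply, ContinuousMap.smul_apply,
      cpx_apply, smul_eq_mul]
    have h4 : (f x : ℂ) * F 0 x * (f x : ℂ) - c * ((f x : ℂ) * (f x : ℂ)) =
        ((f x : ℂ) * (f x : ℂ)) * (F 0 x - c) := by ring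
    rw [h4, norm_mul, norm_mul, Complex.norm_real, Real.norm_eq_abs, abs_of_nonneg (hf01 x).1]
    by_cases hx : x ∈ O₁ ∩ {x : X | ‖F 0 x - F 0 x₀‖ < ε / 4}
    · have h5 : ‖F 0 x - c‖ ≤ ε / 2 := by
        have h6 : F 0 x - c = (F 0 x - F 0 x₀) + (F 0 x₀ - c) := by ring
        have h7 : ‖F 0 x - F 0 x₀‖ < ε / 4 := hx.2
        rw [h6]
        refine (norm_add_le _ _).trans ?_
        linarith
      have h6 : f x * f x ≤ 1 := by
        have := hf01 x
        nlinarith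
      have h7 : 0 ≤ f x * f x := mul_self_nonneg _
      calc f x * f x * ‖F 0 x - c‖ ≤ 1 * (ε / 2) :=
            mul_le_mul h6 h5 (norm_nonneg _) zero_le_one
        _ = ε / 2 := one_mul _
    · rw [hfO x hx]
      simp
      positivity
  refine (norm_add_le _ _).trans ?_
  linarith

end C

end Pool.Agent.Helper61.RC
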