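import Pool.Agent.Helper61.RC.Base2

/-!
# RC-4: functional calculus and the dimension function
-/

set_option autoImplicit false

open scoped ENNReal NNReal Topology CStarAlgebra ComplexOrder
open Filter

noncomputable section

namespace Pool.Agent.Helper61.RC

section A
variable {M : Type*} [CStarAlgebra M] [PartialOrder M] [StarOrderedRing M]

theorem r4_norm_cfc_le {a : M} (f : ℝ → ℝ) {c : ℝ} (hc : 0 ≤ c)
    (h : ∀ t ∈ spectrum ℝ a, |f t| ≤ c) : ‖fc f a‖ ≤ c := by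
  unfold fc
  exact norm_cfc_le hc (fun t ht => by rw [Real.norm_eq_abs]; exact h t ht)

theorem norm_cut_sub_le {a : M} (ha : 0 ≤ a) {ε : ℝ} (hε : 0 ≤ ε) : ‖cut ε a - a‖ ≤ ε := by
  have hsa : IsSelfAdjoint a := IsSelfAdjoint.of_nonneg ha
  have h1 : cut ε a - a = fc (fun t => max (t - ε) 0 - t) a := by
    unfold cut fc
    rw [cfc_sub (fun t => max (t - ε) 0) (fun t => t) a, cfc_id' ℝ a]
  rw [h1]
  apply r4_norm_cfc_le _ hε
  intro t ht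
  have ht0 : 0 ≤ t := spectrum_nonneg_of_nonneg ha ht
  rw [abs_le]
  rcases le_total (t - ε) 0 with h | h
  · rw [max_eq_right h]
    constructor <;> linarith
  · rw [max_eq_left h]
    constructor <;> linarith

omit [PartialOrder M] [StarOrderedRing M] in
theorem r4_cut_def (a : M) (ε : ℝ) : cut ε a = fc (fun t => max (t - ε) 0) a := rfl

theorem cut_nonneg (a : M) (ε : ℝ) : 0 ≤ cut ε a := by
  unfold cut fc
  exact cfc_nonneg (fun t _ => le_max_right _ _)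

theorem cut_le {a : M} (ha : 0 ≤ a) {ε : ℝ} (hε : 0 ≤ ε) : cut ε a ≤ a := by
  have hsa : IsSelfAdjoint a := IsSelfAdjoint.of_nonneg ha
  conv_rhs => rw [← cfc_id' ℝ a]
  unfold cut fc
  refine cfc_mono (fun t ht => ?_) (by fun_prop) continuousOn_id
  have ht0 : 0 ≤ t := spectrum_nonneg_of_nonneg ha ht
  exact max_le (by linarith) ht0

/-- positive functionals are monotone on the functional calculus -/
theorem r4_mono (ρ : M →ₗ[ℂ] ℂ) (hρ : ∀ a, 0 ≤ ρ (star a * a)) {a : M}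
    {f g : ℝ → ℝ} (hf : Continuous f) (hg : Continuous g)
    (h : ∀ t ∈ spectrum ℝ a, f t ≤ g t) : (ρ (fc f a)).re ≤ (ρ (fc g a)).re := by
  have h1 : fc f a ≤ fc g a := by
    unfold fc
    exact cfc_mono h hf.continuousOn hg.continuousOn
  have h2 : 0 ≤ fc g a - fc f a := sub_nonneg.2 h1
  obtain ⟨c, hc⟩ := CStarAlgebra.nonneg_iff_eq_star_mul_self.1 h2
  have h3 := hρ c
  rw [← hc, map_sub] at h3
  have h4 := (Complex.le_def.1 h3).1
  simp only [Complex.zero_re, Complex.sub_re] at h4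
  linarith

theorem r4_smul (ρ : M →ₗ[ℂ] ℂ) {a : M} {f : ℝ → ℝ} (hf : Continuous f) (c : ℝ) :
    (ρ (fc (fun t => c * f t) a)).re = c * (ρ (fc f a)).re := by
  have h1 : fc (fun t => c * f t) a = (c : ℂ) • fc f a := by
    unfold fc
    rw [cfc_const_mul c f a hf.continuousOn]
    rw [← Complex.coe_smul]
  rw [h1, map_smul, smul_eq_mul, Complex.re_ofReal_mul]

theorem r4_add_const (ρ : M →ₗ[ℂ] ℂ) {a : M} (ha : IsSelfAdjoint a) {f : ℝ → ℝ}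
    (hf : Continuous f) (c : ℝ) :
    (ρ (fc (fun t => f t + c) a)).re = (ρ (fc f a)).re + c * (ρ 1).re := by
  have h1 : fc (fun t => f t + c) a = fc f a + (c : ℂ) • (1 : M) := by
    unfold fc
    rw [cfc_add_const c f a hf.continuousOn ha, Algebra.algebraMap_eq_smul_one,
      ← Complex.coe_smul]
  rw [h1, map_add, map_smul, smul_eq_mul, Complex.add_re, Complex.re_ofReal_mul]

theorem r4_cont_ramp {δ : ℝ} : Continuous (ramp δ) := by
  unfold ramp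
  fun_prop

theorem r4_ramp_nonneg {δ : ℝ} (hδ : 0 < δ) (t : ℝ) : 0 ≤ ramp δ t := by
  unfold ramp
  apply le_min zero_le_one
  exact div_nonneg (le_max_left _ _) hδ.le

theorem r4_ramp_le_one {δ : ℝ} (t : ℝ) : ramp δ t ≤ 1 := min_le_left _ _

theorem r4_cont_pow (m : ℕ) : Continuous (fun t : ℝ => t ^ ((1 : ℝ) / ((m : ℝ) + 1))) := by
  apply continuous_id.rpow_const
  intro x
  right
  positivity

/-- (i) -/
theorem r4_i {δ t : ℝ} (hδ : 0 < δ) (ht : 0 ≤ t) (m : ℕ) :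
    δ ^ ((1 : ℝ) / ((m : ℝ) + 1)) * ramp δ t ≤ t ^ ((1 : ℝ) / ((m : ℝ) + 1)) := by
  set p : ℝ := (1 : ℝ) / ((m : ℝ) + 1) with hp
  have hp0 : 0 < p := by rw [hp]; positivity
  have hp1 : p ≤ 1 := by
    rw [hp, div_le_one (by positivity)]
    have : (0 : ℝ) ≤ m := Nat.cast_nonneg m
    linarith
  have hr : ramp δ t = min 1 (t / δ) := by
    unfold ramp
    rw [max_eq_right ht]
  have h2 : t ^ p = δ ^ p * (t / δ) ^ p := by
    rw [← Real.mul_rpow hδ.le (by positivity)]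
    congr 1
    field_simp
  rw [hr, h2]
  apply mul_le_mul_of_nonneg_left _ (by positivity)
  rcases le_total (t / δ) 1 with h | h
  · rw [min_eq_right h]
    calc t / δ = (t / δ) ^ (1 : ℝ) := (Real.rpow_one _).symm
      _ ≤ (t / δ) ^ p := by
        rcases eq_or_lt_of_le (show 0 ≤ t / δ by positivity) with h0 | h0
        · rw [← h0, Real.zero_rpow one_ne_zero, Real.zero_rpow hp0.ne']
        · exact Real.rpow_le_rpow_of_exponent_ge h0 h hp1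
  · rw [min_eq_left h]
    exact Real.one_le_rpow h hp0.le

/-- (ii) -/
theorem r4_ii {δ t K : ℝ} (hδ : 0 < δ) (ht : 0 ≤ t) (htK : t ≤ K) (hK : 1 ≤ K) (m : ℕ) :
    t ^ ((1 : ℝ) / ((m : ℝ) + 1)) ≤
      K ^ ((1 : ℝ) / ((m : ℝ) + 1)) * (ramp δ t + δ ^ ((1 : ℝ) / ((m : ℝ) + 1))) := by
  set p : ℝ := (1 : ℝ) / ((m : ℝ) + 1) with hp
  have hp0 : 0 < p := by rw [hp]; positivity
  have hKp : 1 ≤ K ^ p := Real.one_le_rpow hK hp0.le
  have hdp : 0 ≤ δ ^ p := by positivity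
  rcases le_total t δ with h | h
  · have h1 : t ^ p ≤ δ ^ p := Real.rpow_le_rpow ht h hp0.le
    have h2 := r4_ramp_nonneg hδ t
    nlinarith
  · have h1 : ramp δ t = 1 := by
      unfold ramp
      rw [max_eq_right ht, min_eq_left]
      rwa [le_div_iff₀ hδ, one_mul]
    have h2 : t ^ p ≤ K ^ p := Real.rpow_le_rpow ht htK hp0.le
    rw [h1]
    nlinarith

/-- bound of the spectrum -/
theorem r4_spec (a : M) : ∃ K : ℝ, 1 ≤ K ∧ ∀ t ∈ spectrum ℝ a, t ≤ K := by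
  refine ⟨max 1 (‖a‖ * ‖(1 : M)‖), le_max_left _ _, fun t ht => ?_⟩
  have h1 := spectrum.norm_le_norm_mul_of_mem ht
  exact (le_abs_self t).trans (h1.trans (le_max_right _ _))

/-- `c^(1/(m+1)) → 1` -/
theorem r4_pow_tendsto {c : ℝ} (hc : 0 < c) :
    Tendsto (fun m : ℕ => c ^ ((1 : ℝ) / ((m : ℝ) + 1))) atTop (𝓝 1) := by
  have h1 : Tendsto (fun m : ℕ => (1 : ℝ) / ((m : ℝ) + 1)) atTop (𝓝 0) :=
    tendsto_one_div_add_atTop_nhds_zero_nat
  have h2 : Continuous fun p : ℝ => c ^ p := Real.continuous_const_rpow hc.ne'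
  have h3 := (h2.tendsto 0).comp h1
  simpa [Function.comp_def] using h3

theorem ramp_mono (ρ : M →ₗ[ℂ] ℂ) (hρ : ∀ a, 0 ≤ ρ (star a * a)) {a : M} (ha : 0 ≤ a)
    {δ δ' : ℝ} (hδ' : 0 < δ') (hδ : δ' ≤ δ) :
    (ρ (fc (ramp δ) a)).re ≤ (ρ (fc (ramp δ') a)).re := by
  apply r4_mono ρ hρ r4_cont_ramp r4_cont_ramp
  intro t _
  unfold ramp
  apply min_le_min le_rfl
  exact div_le_div_of_nonneg_left (le_max_left _ _) hδ' hδ

/-- the supremum of the values of the ramps -/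
def r4_sup (ρ : M →ₗ[ℂ] ℂ) (a : M) : ℝ := sSup {r : ℝ | ∃ δ : ℝ, 0 < δ ∧ r = (ρ (fc (ramp δ) a)).re}

theorem r4_bdd (ρ : M →ₗ[ℂ] ℂ) (hρ : ∀ a, 0 ≤ ρ (star a * a)) {a : M} (ha : 0 ≤ a) :
    BddAbove {r : ℝ | ∃ δ : ℝ, 0 < δ ∧ r = (ρ (fc (ramp δ) a)).re} := by
  refine ⟨(ρ (fc (fun _ => 1) a)).re, ?_⟩
  rintro r ⟨δ, hδ, rfl⟩
  exact r4_mono ρ hρ r4_cont_ramp continuous_const (fun t _ => r4_ramp_le_one t)

theorem r4_le_sup (ρ : M →ₗ[ℂ] ℂ) (hρ : ∀ a, 0 ≤ ρ (star a * a)) {a : M} (ha : 0 ≤ a)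
    {δ : ℝ} (hδ : 0 < δ) : (ρ (fc (ramp δ) a)).re ≤ r4_sup ρ a :=
  le_csSup (r4_bdd ρ hρ ha) ⟨δ, hδ, rfl⟩

theorem r4_exists (ρ : M →ₗ[ℂ] ℂ) {a : M} {ζ : ℝ} (hζ : ζ < r4_sup ρ a) :
    ∃ δ : ℝ, 0 < δ ∧ ζ < (ρ (fc (ramp δ) a)).re := by
  obtain ⟨r, ⟨δ, hδ, rfl⟩, hr⟩ := exists_lt_of_lt_csSup
    (s := {r : ℝ | ∃ δ : ℝ, 0 < δ ∧ r = (ρ (fc (ramp δ) a)).re}) ⟨_, 1, one_pos, rfl⟩ hζ
  exact ⟨δ, hδ, hr⟩

theorem r4_tendsto_sup (ρ : M →ₗ[ℂ] ℂ) (hρ : ∀ a, 0 ≤ ρ (star a * a)) {a : M} (ha : 0 ≤ a) :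
    Tendsto (fun m : ℕ => (ρ (fc (fun t : ℝ => t ^ ((1 : ℝ) / ((m : ℝ) + 1))) a)).re) atTop
      (𝓝 (r4_sup ρ a)) := by
  have hsa : IsSelfAdjoint a := IsSelfAdjoint.of_nonneg ha
  obtain ⟨K, hK1, hK⟩ := r4_spec a
  have hlow : ∀ (δ : ℝ), 0 < δ → ∀ m : ℕ, δ ^ ((1 : ℝ) / ((m : ℝ) + 1)) *
      (ρ (fc (ramp δ) a)).re ≤
        (ρ (fc (fun t : ℝ => t ^ ((1 : ℝ) / ((m : ℝ) + 1))) a)).re := by
    intro δ hδ m
    rw [← r4_smul ρ r4_cont_ramp]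
    exact r4_mono ρ hρ (r4_cont_ramp.const_mul _) (r4_cont_pow m)
      (fun t ht => r4_i hδ (spectrum_nonneg_of_nonneg ha ht) m)
  have hup : ∀ m : ℕ, (ρ (fc (fun t : ℝ => t ^ ((1 : ℝ) / ((m : ℝ) + 1))) a)).re ≤
      K ^ ((1 : ℝ) / ((m : ℝ) + 1)) * r4_sup ρ a := by
    intro m
    set p : ℝ := (1 : ℝ) / ((m : ℝ) + 1) with hp
    have hp0 : 0 < p := by rw [hp]; positivity
    have h1 : ∀ δ : ℝ, 0 < δ → (ρ (fc (fun t : ℝ => t ^ p) a)).re ≤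
        K ^ p * (r4_sup ρ a + δ ^ p * (ρ 1).re) := by
      intro δ hδ
      have h2 := r4_mono ρ hρ (a := a) (r4_cont_pow m)
        (((r4_cont_ramp (δ := δ)).add_const (δ ^ p)).const_mul (K ^ p))
        (fun t ht => r4_ii hδ (spectrum_nonneg_of_nonneg ha ht) (hK t ht) hK1 m)
      rw [r4_smul ρ (r4_cont_ramp.add_const _), r4_add_const ρ hsa r4_cont_ramp] at h2
      refine h2.trans ?_
      apply mul_le_mul_of_nonneg_left _ (by positivity)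
      have := r4_le_sup ρ hρ ha hδ
      linarith
    have h3 : Tendsto (fun δ : ℝ => K ^ p * (r4_sup ρ a + δ ^ p * (ρ 1).re)) (𝓝[>] 0)
        (𝓝 (K ^ p * r4_sup ρ a)) := by
      have h4 : Continuous fun δ : ℝ => K ^ p * (r4_sup ρ a + δ ^ p * (ρ 1).re) := by
        have : Continuous fun δ : ℝ => δ ^ p := by
          apply continuous_id.rpow_const
          intro x
          right
          exact hp0.le
        fun_prop
      have h5 := (h4.tendsto 0).mono_left (nhdsWithin_le_nhds (s := Set.Ioi 0))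
      rw [Real.zero_rpow hp0.ne', zero_mul, add_zero] at h5
      exact h5
    exact ge_of_tendsto h3 (by
      filter_upwards [self_mem_nhdsWithin] with δ hδ
      exact h1 δ hδ)
  rw [tendsto_order]
  constructor
  · intro ζ hζ
    obtain ⟨δ, hδ, hδζ⟩ := r4_exists ρ hζ
    have h1 : Tendsto (fun m : ℕ => δ ^ ((1 : ℝ) / ((m : ℝ) + 1)) * (ρ (fc (ramp δ) a)).re)
        atTop (𝓝 (1 * (ρ (fc (ramp δ) a)).re)) := (r4_pow_tendsto hδ).mul_const _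
    rw [one_mul] at h1
    filter_upwards [(tendsto_order.1 h1).1 ζ hδζ] with m hm
    exact hm.trans_le (hlow δ hδ m)
  · intro ζ hζ
    have h1 : Tendsto (fun m : ℕ => K ^ ((1 : ℝ) / ((m : ℝ) + 1)) * r4_sup ρ a)
        atTop (𝓝 (1 * r4_sup ρ a)) := (r4_pow_tendsto (by linarith)).mul_const _
    rw [one_mul] at h1
    filter_upwards [(tendsto_order.1 h1).2 ζ hζ] with m hm
    exact (hup m).trans_lt hm

theorem r4_dRho_eq (ρ : M →ₗ[ℂ] ℂ) (hρ : ∀ a, 0 ≤ ρ (star a * a)) {a : M} (ha : 0 ≤ a) :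
    dRho ρ a = r4_sup ρ a := (r4_tendsto_sup ρ hρ ha).limUnder_eq

theorem dRho_tendsto (ρ : M →ₗ[ℂ] ℂ) (hρ : ∀ a, 0 ≤ ρ (star a * a)) {a : M} (ha : 0 ≤ a) :
    Tendsto (fun m : ℕ => (ρ (fc (fun t : ℝ => t ^ ((1 : ℝ) / ((m : ℝ) + 1))) a)).re) atTop
      (𝓝 (dRho ρ a)) := by
  rw [r4_dRho_eq ρ hρ ha]
  exact r4_tendsto_sup ρ hρ ha

theorem ramp_le_dRho (ρ : M →ₗ[ℂ] ℂ) (hρ : ∀ a, 0 ≤ ρ (star a * a)) {a : M} (ha : 0 ≤ a)
    {δ : ℝ} (hδ : 0 < δ) : (ρ (fc (ramp δ) a)).re ≤ dRho ρ a := by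
  rw [r4_dRho_eq ρ hρ ha]
  exact r4_le_sup ρ hρ ha hδ

theorem exists_lt_ramp (ρ : M →ₗ[ℂ] ℂ) (hρ : ∀ a, 0 ≤ ρ (star a * a)) {a : M} (ha : 0 ≤ a)
    {ζ : ℝ} (hζ : ζ < dRho ρ a) : ∃ δ : ℝ, 0 < δ ∧ ζ < (ρ (fc (ramp δ) a)).re := by
  rw [r4_dRho_eq ρ hρ ha] at hζ
  exact r4_exists ρ hζ

theorem dRho_cut_le (ρ : M →ₗ[ℂ] ℂ) (hρ : ∀ a, 0 ≤ ρ (star a * a)) {a : M} (ha : 0 ≤ a)
    {ε : ℝ} (hε : 0 < ε) : dRho ρ (cut ε a) ≤ (ρ (fc (ramp ε) a)).re := by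
  have hsa : IsSelfAdjoint a := IsSelfAdjoint.of_nonneg ha
  obtain ⟨K, hK1, hK⟩ := r4_spec a
  have h1 := dRho_tendsto ρ hρ (cut_nonneg a ε)
  have h2 : Tendsto (fun m : ℕ => K ^ ((1 : ℝ) / ((m : ℝ) + 1)) * (ρ (fc (ramp ε) a)).re)
      atTop (𝓝 (1 * (ρ (fc (ramp ε) a)).re)) := (r4_pow_tendsto (by linarith)).mul_const _
  rw [one_mul] at h2
  refine le_of_tendsto_of_tendsto' h1 h2 fun m => ?_
  set p : ℝ := (1 : ℝ) / ((m : ℝ) + 1) with hp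
  have hp0 : 0 < p := by rw [hp]; positivity
  have hcut : Continuous fun t : ℝ => max (t - ε) 0 := by fun_prop
  have h3 : fc (fun t : ℝ => t ^ p) (cut ε a) = fc (fun t => (max (t - ε) 0) ^ p) a := by
    unfold cut fc
    rw [cfc_comp' (fun t : ℝ => t ^ p) (fun t => max (t - ε) 0) a
      (r4_cont_pow m).continuousOn hcut.continuousOn]
  rw [h3, ← r4_smul ρ r4_cont_ramp]
  apply r4_mono ρ hρ ((r4_cont_pow m).comp hcut) (r4_cont_ramp.const_mul _)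
  intro t ht
  have ht0 : 0 ≤ t := spectrum_nonneg_of_nonneg ha ht
  have htK := hK t ht
  rcases le_total t ε with h | h
  · have h4 : max (t - ε) 0 = 0 := max_eq_right (by linarith)
    simp only [Function.comp]
    rw [h4, Real.zero_rpow hp0.ne']
    have := r4_ramp_nonneg hε t
    positivity
  · have h4 : max (t - ε) 0 = t - ε := max_eq_left (by linarith)
    have h5 : ramp ε t = 1 := by
      unfold ramp
      rw [max_eq_right ht0, min_eq_left]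
      rwa [le_div_iff₀ hε, one_mul]
    simp only [Function.comp]
    rw [h4, h5, mul_one]
    exact Real.rpow_le_rpow (by linarith) (by linarith) hp0.le

theorem le_dRho (ρ : M →ₗ[ℂ] ℂ) (hρ : ∀ a, 0 ≤ ρ (star a * a)) {a : M} (ha : 0 ≤ a)
    (ha1 : a ≤ 1) : (ρ a).re ≤ dRho ρ a := by
  have hsa : IsSelfAdjoint a := IsSelfAdjoint.of_nonneg ha
  have h1 := dRho_tendsto ρ hρ ha
  refine ge_of_tendsto' h1 fun m => ?_
  have h2 : (ρ a).re = (ρ (fc (fun t => t) a)).re := by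
    unfold fc
    rw [cfc_id' ℝ a]
  rw [h2]
  apply r4_mono ρ hρ continuous_id (r4_cont_pow m)
  intro t ht
  have ht0 : 0 ≤ t := spectrum_nonneg_of_nonneg ha ht
  have ht1 : t ≤ 1 := by
    have h3 : a ≤ algebraMap ℝ M 1 := by rw [map_one]; exact ha1
    exact (le_algebraMap_iff_spectrum_le (a := a) (r := (1 : ℝ))).1 h3 t ht
  set p : ℝ := (1 : ℝ) / ((m : ℝ) + 1) with hp
  have hp0 : 0 < p := by rw [hp]; positivity
  have hp1 : p ≤ 1 := by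
    rw [hp, div_le_one (by positivity)]
    have : (0 : ℝ) ≤ m := Nat.cast_nonneg m
    linarith
  rcases eq_or_lt_of_le ht0 with h0 | h0
  · rw [← h0, Real.zero_rpow hp0.ne']
    exact le_rfl
  · calc t = t ^ (1 : ℝ) := (Real.rpow_one _).symm
      _ ≤ t ^ p := Real.rpow_le_rpow_of_exponent_ge h0 ht1 hp1

theorem dRho_nonneg (ρ : M →ₗ[ℂ] ℂ) (hρ : ∀ a, 0 ≤ ρ (star a * a)) {a : M} (ha : 0 ≤ a) :
    0 ≤ dRho ρ a := by
  have h1 := dRho_tendsto ρ hρ ha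
  refine ge_of_tendsto' h1 fun m => ?_
  have h2 := r4_mono ρ hρ (a := a) continuous_const (r4_cont_pow m)
    (f := fun _ => (0 : ℝ)) (fun t ht => Real.rpow_nonneg (spectrum_nonneg_of_nonneg ha ht) _)
  have h3 : fc (fun _ => (0 : ℝ)) a = 0 := by
    unfold fc
    exact cfc_const_zero ℝ a
  rw [h3, map_zero, Complex.zero_re] at h2
  exact h2

omit [PartialOrder M] [StarOrderedRing M] in
theorem dRho_zero (ρ : M →ₗ[ℂ] ℂ) : dRho ρ (0 : M) = 0 := by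
  unfold dRho
  have h1 : (fun m : ℕ => (ρ (fc (fun t : ℝ => t ^ ((1 : ℝ) / ((m : ℝ) + 1))) (0 : M))).re) =
      fun _ => (0 : ℝ) := by
    funext m
    have hp0 : (1 : ℝ) / ((m : ℝ) + 1) ≠ 0 := by positivity
    unfold fc
    rw [cfc_apply_zero, Real.zero_rpow hp0, map_zero, map_zero, Complex.zero_re]
  rw [h1]
  exact tendsto_const_nhds.limUnder_eq

end A

end Pool.Agent.Helper61.RC
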